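import Pool.Agent.Helper35.HC.StB

/-!
Project HC (MP_925021_gt), module GSJ (helper10): jets of `|A(P,Q)|²` for a moving orthonormal pair.
-/

set_option autoImplicit false

namespace Helper10.HC

open Helper35.HC Helper35.HSF Helper35.MS Helper35.PI Helper35.PI2 Helper32.CL
open scoped ContDiff Manifold Topology ENNReal BigOperators
open Set Filter

section alg

variable {n N : ℕ}

/-- bilinear form in two vectors -/
private noncomputable def b2 (c d : Fin n → ℝ) (x : Fin n → Fin n → ℝ) : ℝ :=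
  ∑ i, ∑ j, c i * d j * x i j

/-- quadrilinear form in four vectors -/
private noncomputable def q4 (c d c' d' : Fin n → ℝ) (F : Fin n → Fin n → Fin n → Fin n → ℝ) :
    ℝ := ∑ i, ∑ j, ∑ k, ∑ l, c i * d j * (c' k * d' l) * F i j k l

private theorem b2_sum {ι : Type} (s : Finset ι) (c d : Fin n → ℝ)
    (F : ι → Fin n → Fin n → ℝ) :
    b2 c d (fun i j => ∑ m ∈ s, F m i j) = ∑ m ∈ s, b2 c d (F m) := by
  classical
  induction s using Finset.induction_on with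
  | empty => simp [b2]
  | insert a s ha ih =>
    rw [Finset.sum_insert ha, ← ih]
    unfold b2
    rw [← Finset.sum_add_distrib]
    refine Finset.sum_congr rfl fun i _ => ?_
    rw [← Finset.sum_add_distrib]
    refine Finset.sum_congr rfl fun j _ => ?_
    show c i * d j * (∑ m ∈ insert a s, F m i j) =
      c i * d j * F a i j + c i * d j * (∑ m ∈ s, F m i j)
    rw [Finset.sum_insert ha]
    ring

private theorem b2_smul (c d : Fin n → ℝ) (r : ℝ) (F : Fin n → Fin n → ℝ) :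
    b2 c d (fun i j => r * F i j) = r * b2 c d F := by
  unfold b2
  rw [Finset.mul_sum]
  refine Finset.sum_congr rfl fun i _ => ?_
  rw [Finset.mul_sum]
  refine Finset.sum_congr rfl fun j _ => ?_
  ring

private theorem q4_add (c d c' d' : Fin n → ℝ) (F G : Fin n → Fin n → Fin n → Fin n → ℝ) :
    q4 c d c' d' (fun i j k l => F i j k l + G i j k l) =
      q4 c d c' d' F + q4 c d c' d' G := by
  unfold q4
  rw [← Finset.sum_add_distrib]
  refine Finset.sum_congr rfl fun i _ => ?_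
  rw [← Finset.sum_add_distrib]
  refine Finset.sum_congr rfl fun j _ => ?_
  rw [← Finset.sum_add_distrib]
  refine Finset.sum_congr rfl fun k _ => ?_
  rw [← Finset.sum_add_distrib]
  refine Finset.sum_congr rfl fun l _ => ?_
  ring

private theorem q4_smul (c d c' d' : Fin n → ℝ) (r : ℝ)
    (F : Fin n → Fin n → Fin n → Fin n → ℝ) :
    q4 c d c' d' (fun i j k l => r * F i j k l) = r * q4 c d c' d' F := by
  unfold q4
  rw [Finset.mul_sum]
  refine Finset.sum_congr rfl fun i _ => ?_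
  rw [Finset.mul_sum]
  refine Finset.sum_congr rfl fun j _ => ?_
  rw [Finset.mul_sum]
  refine Finset.sum_congr rfl fun k _ => ?_
  rw [Finset.mul_sum]
  refine Finset.sum_congr rfl fun l _ => ?_
  ring

private theorem q4_sum {ι : Type} (s : Finset ι) (c d c' d' : Fin n → ℝ)
    (F : ι → Fin n → Fin n → Fin n → Fin n → ℝ) :
    q4 c d c' d' (fun i j k l => ∑ m ∈ s, F m i j k l) = ∑ m ∈ s, q4 c d c' d' (F m) := by
  classical
  induction s using Finset.induction_on with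
  | empty => simp [q4]
  | insert a s ha ih =>
    rw [Finset.sum_insert ha, ← ih, ← q4_add]
    congr 1
    funext i j k l
    rw [Finset.sum_insert ha]

private theorem q4_mul (c d c' d' : Fin n → ℝ) (x y : Fin n → Fin n → ℝ) :
    q4 c d c' d' (fun i j k l => x i j * y k l) = b2 c d x * b2 c' d' y := by
  unfold q4 b2
  rw [Finset.sum_mul]
  refine Finset.sum_congr rfl fun i _ => ?_
  rw [Finset.sum_mul]
  refine Finset.sum_congr rfl fun j _ => ?_
  rw [Finset.mul_sum]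
  refine Finset.sum_congr rfl fun k _ => ?_
  rw [Finset.mul_sum]
  refine Finset.sum_congr rfl fun l _ => ?_
  ring

private theorem b2_inner_left (c d : Fin n → ℝ) (X : Fin n → Fin n → EE N) (w : EE N) :
    b2 c d (fun i j => (inner ℝ (X i j) w : ℝ)) = inner ℝ (bilV X c d) w := by
  unfold b2 bilV
  rw [sum_inner]
  refine Finset.sum_congr rfl fun i _ => ?_
  rw [sum_inner]
  refine Finset.sum_congr rfl fun j _ => ?_
  rw [real_inner_smul_left]

private theorem b2_inner_right (c d : Fin n → ℝ) (X : Fin n → Fin n → EE N) (w : EE N) :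
    b2 c d (fun i j => (inner ℝ w (X i j) : ℝ)) = inner ℝ w (bilV X c d) := by
  rw [real_inner_comm, ← b2_inner_left]
  congr 1
  funext i j
  rw [real_inner_comm]

private theorem b2_inner_two (c d : Fin n → ℝ) (X Y : Fin n → EE N) :
    b2 c d (fun i j => (inner ℝ (X i) (Y j) : ℝ)) =
      inner ℝ (∑ i, c i • X i) (∑ j, d j • Y j) := by
  unfold b2
  rw [sum_inner]
  refine Finset.sum_congr rfl fun i _ => ?_
  rw [inner_sum]
  refine Finset.sum_congr rfl fun j _ => ?_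
  rw [real_inner_smul_left, real_inner_smul_right]
  ring

private theorem q4_inner (c d c' d' : Fin n → ℝ) (X Y : Fin n → Fin n → EE N) :
    q4 c d c' d' (fun i j k l => (inner ℝ (X i j) (Y k l) : ℝ)) =
      inner ℝ (bilV X c d) (bilV Y c' d') := by
  rw [← b2_inner_left]
  unfold q4 b2
  refine Finset.sum_congr rfl fun i _ => Finset.sum_congr rfl fun j _ => ?_
  show ∑ k, ∑ l, c i * d j * (c' k * d' l) * (inner ℝ (X i j) (Y k l) : ℝ) =
    c i * d j * (inner ℝ (X i j) (bilV Y c' d') : ℝ)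
  rw [← b2_inner_right]
  unfold b2
  rw [Finset.mul_sum]
  refine Finset.sum_congr rfl fun k _ => ?_
  rw [Finset.mul_sum]
  refine Finset.sum_congr rfl fun l _ => ?_
  ring

/-- the sum of the heat of `R_ijkl` -/
private theorem heat_sum (A : Fin n → Fin n → EE N) (T : Fin n → Fin n → Fin n → EE N)
    (P Q : Fin n → ℝ) :
    q4 P Q P Q (fun i j k l => -2 * (∑ m, (inner ℝ (T i j m) (T k l m) : ℝ))
        + 2 * (∑ a, ∑ b, (inner ℝ (A i j) (A a b) : ℝ) * inner ℝ (A k l) (A a b))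
        - 2 * (∑ a, ∑ b, (inner ℝ (A a i) (A b j) : ℝ) * inner ℝ (A a b) (A k l))
        - 2 * (∑ a, ∑ b, (inner ℝ (A a k) (A b l) : ℝ) * inner ℝ (A a b) (A i j))) =
      -2 * (∑ m, ‖∑ i, ∑ j, (P i * Q j) • T i j m‖ ^ 2)
        + 2 * (∑ a, ∑ b, (inner ℝ (bilV A P Q) (A a b) : ℝ) ^ 2)
        - 4 * (∑ a, ∑ b, (inner ℝ (Av A P a) (Av A Q b) : ℝ) * inner ℝ (A a b) (bilV A P Q)) := by
  have e1 : q4 P Q P Q (fun i j k l => ∑ m, (inner ℝ (T i j m) (T k l m) : ℝ)) =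
      ∑ m, ‖∑ i, ∑ j, (P i * Q j) • T i j m‖ ^ 2 := by
    rw [q4_sum]
    refine Finset.sum_congr rfl fun m _ => ?_
    rw [q4_inner P Q P Q (fun i j => T i j m) (fun i j => T i j m), real_inner_self_eq_norm_sq]
    rfl
  have e2 : q4 P Q P Q (fun i j k l => ∑ a, ∑ b, (inner ℝ (A i j) (A a b) : ℝ) *
      inner ℝ (A k l) (A a b)) = ∑ a, ∑ b, (inner ℝ (bilV A P Q) (A a b) : ℝ) ^ 2 := by
    rw [q4_sum]
    refine Finset.sum_congr rfl fun a _ => ?_
    rw [q4_sum]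
    refine Finset.sum_congr rfl fun b _ => ?_
    rw [q4_mul P Q P Q (fun i j => (inner ℝ (A i j) (A a b) : ℝ))
      (fun i j => (inner ℝ (A i j) (A a b) : ℝ)), b2_inner_left]
    ring
  have e3 : q4 P Q P Q (fun i j k l => ∑ a, ∑ b, (inner ℝ (A a i) (A b j) : ℝ) *
      inner ℝ (A a b) (A k l)) = ∑ a, ∑ b, (inner ℝ (Av A P a) (Av A Q b) : ℝ) *
      inner ℝ (A a b) (bilV A P Q) := by
    rw [q4_sum]
    refine Finset.sum_congr rfl fun a _ => ?_
    rw [q4_sum]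
    refine Finset.sum_congr rfl fun b _ => ?_
    rw [q4_mul P Q P Q (fun i j => (inner ℝ (A a i) (A b j) : ℝ))
      (fun k l => (inner ℝ (A a b) (A k l) : ℝ)), b2_inner_right, b2_inner_two]
    rfl
  have e4 : q4 P Q P Q (fun i j k l => ∑ a, ∑ b, (inner ℝ (A a k) (A b l) : ℝ) *
      inner ℝ (A a b) (A i j)) = ∑ a, ∑ b, (inner ℝ (Av A P a) (Av A Q b) : ℝ) *
      inner ℝ (A a b) (bilV A P Q) := by
    rw [q4_sum]
    refine Finset.sum_congr rfl fun a _ => ?_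
    rw [q4_sum]
    refine Finset.sum_congr rfl fun b _ => ?_
    have : (fun i j k l => (inner ℝ (A a k) (A b l) : ℝ) * inner ℝ (A a b) (A i j)) =
        fun i j k l => (fun i j => (inner ℝ (A a b) (A i j) : ℝ)) i j *
          (fun k l => (inner ℝ (A a k) (A b l) : ℝ)) k l := by
      funext i j k l
      ring
    rw [this, q4_mul, b2_inner_right, b2_inner_two]
    rw [mul_comm]
    rfl
  have hsplit : (fun i j k l => -2 * (∑ m, (inner ℝ (T i j m) (T k l m) : ℝ))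
        + 2 * (∑ a, ∑ b, (inner ℝ (A i j) (A a b) : ℝ) * inner ℝ (A k l) (A a b))
        - 2 * (∑ a, ∑ b, (inner ℝ (A a i) (A b j) : ℝ) * inner ℝ (A a b) (A k l))
        - 2 * (∑ a, ∑ b, (inner ℝ (A a k) (A b l) : ℝ) * inner ℝ (A a b) (A i j))) =
      fun i j k l => ((-2 * (∑ m, (inner ℝ (T i j m) (T k l m) : ℝ))
        + 2 * (∑ a, ∑ b, (inner ℝ (A i j) (A a b) : ℝ) * inner ℝ (A k l) (A a b)))
        + (-2) * (∑ a, ∑ b, (inner ℝ (A a i) (A b j) : ℝ) * inner ℝ (A a b) (A k l)))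
        + (-2) * (∑ a, ∑ b, (inner ℝ (A a k) (A b l) : ℝ) * inner ℝ (A a b) (A i j)) := by
    funext i j k l
    ring
  rw [hsplit, q4_add, q4_add, q4_add, q4_smul, q4_smul, q4_smul, q4_smul, e1, e2, e3, e4]
  ring

end alg

section jets

variable {n N : ℕ}

/-- the 2-jet of a real function on space time: value, gradient, heat -/
private structure J2 (φ : EE n × ℝ → ℝ) (z : EE n × ℝ) (v : ℝ) (d : Fin n → ℝ) (h : ℝ) :
    Prop where
  c : ContDiffAt ℝ 2 φ z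
  v : φ z = v
  g : ∀ k, jg φ z k = d k
  h : jh φ z = h

private theorem J2.congr (hJA : StJA) {φ ψ : EE n × ℝ → ℝ} {z : EE n × ℝ} {v : ℝ}
    {d : Fin n → ℝ} {h : ℝ} (hψ : J2 ψ z v d h) (he : φ =ᶠ[𝓝 z] ψ) : J2 φ z v d h := by
  obtain ⟨h1, -, -, h4⟩ := (hJA n ℝ z).1 φ ψ he
  exact ⟨hψ.c.congr_of_eventuallyEq he, he.eq_of_nhds.trans hψ.v,
    fun k => (h1 k).trans (hψ.g k), h4.trans hψ.h⟩

private theorem J2.cst (hJA : StJA) (z : EE n × ℝ) (c : ℝ) :
    J2 (fun _ : EE n × ℝ => c) z c (fun _ => 0) 0 := by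
  obtain ⟨h1, h2⟩ := (hJA n ℝ z).2.1 c
  exact ⟨contDiffAt_const, rfl, h1, h2⟩

private theorem J2.add (hJA : StJA) {φ ψ : EE n × ℝ → ℝ} {z : EE n × ℝ} {v v' : ℝ}
    {d d' : Fin n → ℝ} {h h' : ℝ} (h1 : J2 φ z v d h) (h2 : J2 ψ z v' d' h') :
    J2 (fun z => φ z + ψ z) z (v + v') (fun k => d k + d' k) (h + h') := by
  obtain ⟨a1, a2, -, -⟩ := (hJA n ℝ z).2.2.1 φ ψ h1.c h2.c
  refine ⟨h1.c.add h2.c, ?_, ?_, ?_⟩
  · show φ z + ψ z = _
    rw [h1.v, h2.v]
  · intro k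
    rw [a1 k, h1.g k, h2.g k]
  · rw [a2, h1.h, h2.h]

private theorem J2.sub (hJA : StJA) {φ ψ : EE n × ℝ → ℝ} {z : EE n × ℝ} {v v' : ℝ}
    {d d' : Fin n → ℝ} {h h' : ℝ} (h1 : J2 φ z v d h) (h2 : J2 ψ z v' d' h') :
    J2 (fun z => φ z - ψ z) z (v - v') (fun k => d k - d' k) (h - h') := by
  obtain ⟨-, -, a1, a2⟩ := (hJA n ℝ z).2.2.1 φ ψ h1.c h2.c
  refine ⟨h1.c.sub h2.c, ?_, ?_, ?_⟩
  · show φ z - ψ z = _
    rw [h1.v, h2.v]
  · intro k
    rw [a1 k, h1.g k, h2.g k]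
  · rw [a2, h1.h, h2.h]

private theorem J2.cmul (hJA : StJA) {φ : EE n × ℝ → ℝ} {z : EE n × ℝ} {v : ℝ}
    {d : Fin n → ℝ} {h : ℝ} (h1 : J2 φ z v d h) (c : ℝ) :
    J2 (fun z => c * φ z) z (c * v) (fun k => c * d k) (c * h) := by
  obtain ⟨a1, a2⟩ := (hJA n ℝ z).2.2.2.1 φ c h1.c
  refine ⟨contDiffAt_const.mul h1.c, ?_, ?_, ?_⟩
  · show c * φ z = _
    rw [h1.v]
  · intro k
    have := a1 k
    simp only [smul_eq_mul] at this
    rw [this, h1.g k]
  · simp only [smul_eq_mul] at a2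
    rw [a2, h1.h]

private theorem J2.sum (hJA : StJA) {m : ℕ} {φ : Fin m → EE n × ℝ → ℝ} {z : EE n × ℝ}
    {v : Fin m → ℝ} {d : Fin m → Fin n → ℝ} {h : Fin m → ℝ}
    (h1 : ∀ i, J2 (φ i) z (v i) (d i) (h i)) :
    J2 (fun z => ∑ i, φ i z) z (∑ i, v i) (fun k => ∑ i, d i k) (∑ i, h i) := by
  obtain ⟨a1, a2⟩ := (hJA n ℝ z).2.2.2.2 m φ (fun i => (h1 i).c)
  refine ⟨ContDiffAt.sum fun i _ => (h1 i).c, ?_, ?_, ?_⟩
  · exact Finset.sum_congr rfl fun i _ => (h1 i).v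
  · intro k
    rw [a1 k]
    exact Finset.sum_congr rfl fun i _ => (h1 i).g k
  · rw [a2]
    exact Finset.sum_congr rfl fun i _ => (h1 i).h

private theorem J2.mul (hJB : StJB) {φ ψ : EE n × ℝ → ℝ} {z : EE n × ℝ} {v v' : ℝ}
    {d d' : Fin n → ℝ} {h h' : ℝ} (h1 : J2 φ z v d h) (h2 : J2 ψ z v' d' h') :
    J2 (fun z => φ z * ψ z) z (v * v') (fun k => d k * v' + v * d' k)
      (h * v' + v * h' - 2 * ∑ k, d k * d' k) := by
  obtain ⟨a1, a2⟩ := (hJB n 0 z).1 φ ψ h1.c h2.c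
  refine ⟨h1.c.mul h2.c, ?_, ?_, ?_⟩
  · show φ z * ψ z = _
    rw [h1.v, h2.v]
  · intro k
    rw [a1 k, h1.g k, h2.g k, h1.v, h2.v]
  · rw [a2, h1.h, h2.h, h1.v, h2.v]
    congr 2
    exact Finset.sum_congr rfl fun k _ => by rw [h1.g k, h2.g k]

/-- quotient by a function with value 1 and gradient 0 -/
private theorem J2.div1 (hJD : StJD) {φ ψ : EE n × ℝ → ℝ} {z : EE n × ℝ} {v : ℝ}
    {d : Fin n → ℝ} {h h' : ℝ} (h1 : J2 φ z v d h) (h2 : J2 ψ z 1 (fun _ => 0) h') :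
    J2 (fun z => φ z / ψ z) z v d (h - v * h') := by
  have hne : ψ z ≠ 0 := by
    rw [h2.v]
    exact one_ne_zero
  obtain ⟨a1, a2⟩ := (hJD n z).2 φ ψ h1.c h2.c hne
  refine ⟨h1.c.div h2.c hne, ?_, ?_, ?_⟩
  · show φ z / ψ z = _
    rw [h1.v, h2.v, div_one]
  · intro k
    rw [a1 k, h1.g k, h2.g k, h1.v, h2.v]
    simp
  · rw [a2, h1.h, h2.h, h1.v, h2.v]
    have e1 : ∑ k, jg φ z k * jg ψ z k = 0 :=
      Finset.sum_eq_zero fun k _ => by rw [h2.g k, mul_zero]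
    have e2 : ∑ k, jg ψ z k ^ 2 = 0 :=
      Finset.sum_eq_zero fun k _ => by rw [h2.g k]; norm_num
    rw [e1, e2]
    ring

private theorem J2.b2 (hJA : StJA) {φ : Fin n → Fin n → EE n × ℝ → ℝ} {z : EE n × ℝ}
    {v : Fin n → Fin n → ℝ} {d : Fin n → Fin n → Fin n → ℝ} {h : Fin n → Fin n → ℝ}
    (h1 : ∀ i j, J2 (φ i j) z (v i j) (d i j) (h i j)) (c e : Fin n → ℝ) :
    J2 (fun z => b2 c e (fun i j => φ i j z)) z (b2 c e v)
      (fun k => b2 c e (fun i j => d i j k)) (b2 c e h) := by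
  unfold Helper10.HC.b2
  exact J2.sum hJA fun i => J2.sum hJA fun j => (h1 i j).cmul hJA (c i * e j)

private theorem J2.q4 (hJA : StJA) {φ : Fin n → Fin n → Fin n → Fin n → EE n × ℝ → ℝ}
    {z : EE n × ℝ} {v : Fin n → Fin n → Fin n → Fin n → ℝ}
    {d : Fin n → Fin n → Fin n → Fin n → Fin n → ℝ} {h : Fin n → Fin n → Fin n → Fin n → ℝ}
    (h1 : ∀ i j k l, J2 (φ i j k l) z (v i j k l) (d i j k l) (h i j k l))
    (c e c' e' : Fin n → ℝ) :
    J2 (fun z => q4 c e c' e' (fun i j k l => φ i j k l z)) z (q4 c e c' e' v)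
      (fun m => q4 c e c' e' (fun i j k l => d i j k l m)) (q4 c e c' e' h) := by
  unfold Helper10.HC.q4
  exact J2.sum hJA fun i => J2.sum hJA fun j => J2.sum hJA fun k => J2.sum hJA fun l =>
    (h1 i j k l).cmul hJA (c i * e j * (c' k * e' l))

end jets

/-- the metric coefficients -/
private theorem jet_G (hG2 : StG2) (hG3 : StG3) (hJA : StJA) (hJB : StJB) {n N : ℕ} (x₀ : EE N)
    (L : EE n →ₗᵢ[ℝ] EE N) (u : EE n × ℝ → EE N) (t₀ : ℝ) (hG : GraphSol x₀ L u t₀)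
    (i j : Fin n) : J2 (Gf x₀ L u i j) (0, t₀) (if i = j then 1 else 0) (fun _ => 0)
      (-2 * ∑ k, (inner ℝ (jgg u (0, t₀) k i) (jgg u (0, t₀) k j) : ℝ)) := by
  have h3 := (hG3 n N x₀ L u t₀ hG).1
  have hci := (h3 i).1.of_le (show (2 : WithTop ℕ∞) ≤ 4 by norm_num)
  have hcj := (h3 j).1.of_le (show (2 : WithTop ℕ∞) ≤ 4 by norm_num)
  obtain ⟨b1, b2'⟩ := (hJB n N (0, t₀)).2 (fun z => jg u z i) (fun z => jg u z j) hci hcj
  have hin : J2 (fun z => (inner ℝ (jg u z i) (jg u z j) : ℝ)) (0, t₀) 0 (fun _ => 0)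
      (-2 * ∑ k, (inner ℝ (jgg u (0, t₀) k i) (jgg u (0, t₀) k j) : ℝ)) := by
    refine ⟨hci.inner ℝ hcj, ?_, ?_, ?_⟩
    · show (inner ℝ (jg u (0, t₀) i) (jg u (0, t₀) j) : ℝ) = 0
      rw [hG.du0 i, inner_zero_left]
    · intro k
      rw [b1 k, hG.du0 i, hG.du0 j, inner_zero_left, inner_zero_right, add_zero]
    · rw [b2', hG.du0 i, hG.du0 j, inner_zero_left, inner_zero_right]
      show 0 + 0 - 2 * (∑ k, (inner ℝ (jgg u (0, t₀) k i) (jgg u (0, t₀) k j) : ℝ)) = _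
      ring
  have hadd := (J2.cst hJA ((0 : EE n), t₀) (if i = j then (1 : ℝ) else 0)).add hJA hin
  have he : Gf x₀ L u i j =ᶠ[𝓝 ((0 : EE n), t₀)]
      fun z => (if i = j then (1 : ℝ) else 0) + inner ℝ (jg u z i) (jg u z j) := by
    filter_upwards [hG2 n N x₀ L u t₀ hG] with z hz
    exact hz.2.2.1 i j
  have := hadd.congr hJA he
  simpa using this

theorem hGSJ (hG2 : StG2) (hG3 : StG3) (hG6 : StG6) (hJA : StJA) (hJB : StJB) (hJD : StJD) :
    StGSJ := by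
  intro n N x₀ L u t₀ hG A T hA hT P Q hPQ g β hg hβ
  obtain ⟨hP, hQ, hPQ0⟩ := hPQ
  -- the metric
  have hgg : ∀ c d : Fin n → ℝ, J2 (g c d) (0, t₀) (∑ i, c i * d i) (fun _ => 0)
      (-2 * Sbl A c d) := by
    intro c d
    have h1 := J2.b2 hJA (fun i j => jet_G hG2 hG3 hJA hJB x₀ L u t₀ hG i j) c d
    have e1 : b2 c d (fun i j => if i = j then (1 : ℝ) else 0) = ∑ i, c i * d i := by
      unfold b2
      refine Finset.sum_congr rfl fun i _ => ?_
      simp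
    have e2 : b2 c d (fun i j =>
        -2 * ∑ k, (inner ℝ (jgg u (0, t₀) k i) (jgg u (0, t₀) k j) : ℝ)) = -2 * Sbl A c d := by
      rw [b2_smul, b2_sum]
      congr 1
      unfold Sbl
      refine Finset.sum_congr rfl fun k _ => ?_
      rw [b2_inner_two c d (fun i => jgg u (0, t₀) k i) (fun i => jgg u (0, t₀) k i), ← hA]
      rfl
    have e3 : (fun _ : Fin n => b2 c d (fun _ _ => (0 : ℝ))) = fun _ => 0 := by
      funext k
      simp [b2]
    have e4 : g c d = fun z => b2 c d (fun i j => Gf x₀ L u i j z) := by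
      funext z
      rw [hg]
      show (inner ℝ (∑ i, c i • dv1 (grf x₀ L u z.2) z.1 i)
        (∑ i, d i • dv1 (grf x₀ L u z.2) z.1 i) : ℝ) = _
      rw [← b2_inner_two]
      rfl
    rw [e1, e2, e3] at h1
    rw [e4]
    exact h1
  have hPP : J2 (g P P) (0, t₀) 1 (fun _ => 0) (-2 * Sbl A P P) := by
    have h1 := hgg P P
    have : ∑ i, P i * P i = 1 := by rw [← hP]; exact Finset.sum_congr rfl fun i _ => by ring
    rwa [this] at h1
  have hQQ : J2 (g Q Q) (0, t₀) 1 (fun _ => 0) (-2 * Sbl A Q Q) := by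
    have h1 := hgg Q Q
    have : ∑ i, Q i * Q i = 1 := by rw [← hQ]; exact Finset.sum_congr rfl fun i _ => by ring
    rwa [this] at h1
  have hPQg : J2 (g P Q) (0, t₀) 0 (fun _ => 0) (-2 * Sbl A P Q) := by
    have h1 := hgg P Q
    rwa [hPQ0] at h1
  have hq := hPQg.div1 hJD hPP
  rw [zero_mul, sub_zero] at hq
  -- the products of the second fundamental form
  have hR : ∀ c d c' d' : Fin n → ℝ, ∃ (D : Fin n → ℝ) (H : ℝ),
      J2 (fun z => (inner ℝ (bilV (fun i j => sff (grf x₀ L u z.2) z.1 i j) c d)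
        (bilV (fun i j => sff (grf x₀ L u z.2) z.1 i j) c' d') : ℝ)) (0, t₀)
        (inner ℝ (bilV A c d) (bilV A c' d')) D H := by
    intro c d c' d'
    have h1 : ∀ i j k l : Fin n, J2 (Rf x₀ L u i j k l) (0, t₀) (inner ℝ (A i j) (A k l))
        (jg (Rf x₀ L u i j k l) (0, t₀)) (jh (Rf x₀ L u i j k l) (0, t₀)) := by
      intro i j k l
      obtain ⟨k1, k2, -, -⟩ := hG6 n N x₀ L u t₀ hG A T hA hT i j k l
      exact ⟨k1.of_le (show (2 : WithTop ℕ∞) ≤ 4 by norm_num), k2, fun _ => rfl, rfl⟩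
    have h2 := J2.q4 hJA h1 c d c' d'
    rw [q4_inner] at h2
    refine ⟨_, _, h2.congr hJA (Eventually.of_forall fun z => ?_)⟩
    show (inner ℝ (bilV (fun i j => sff (grf x₀ L u z.2) z.1 i j) c d)
        (bilV (fun i j => sff (grf x₀ L u z.2) z.1 i j) c' d') : ℝ) = _
    rw [← q4_inner]
    rfl
  have hR1 : ∃ D : Fin n → ℝ,
      J2 (fun z => (inner ℝ (bilV (fun i j => sff (grf x₀ L u z.2) z.1 i j) P Q)
        (bilV (fun i j => sff (grf x₀ L u z.2) z.1 i j) P Q) : ℝ)) (0, t₀)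
        (inner ℝ (bilV A P Q) (bilV A P Q)) D
        (-2 * (∑ m, ‖∑ i, ∑ j, (P i * Q j) • T i j m‖ ^ 2)
        + 2 * (∑ a, ∑ b, (inner ℝ (bilV A P Q) (A a b) : ℝ) ^ 2)
        - 4 * (∑ a, ∑ b, (inner ℝ (Av A P a) (Av A Q b) : ℝ) * inner ℝ (A a b) (bilV A P Q))) := by
    have h1 : ∀ i j k l : Fin n, J2 (Rf x₀ L u i j k l) (0, t₀) (inner ℝ (A i j) (A k l))
        (jg (Rf x₀ L u i j k l) (0, t₀)) (-2 * (∑ m, (inner ℝ (T i j m) (T k l m) : ℝ))
        + 2 * (∑ a, ∑ b, (inner ℝ (A i j) (A a b) : ℝ) * inner ℝ (A k l) (A a b))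
        - 2 * (∑ a, ∑ b, (inner ℝ (A a i) (A b j) : ℝ) * inner ℝ (A a b) (A k l))
        - 2 * (∑ a, ∑ b, (inner ℝ (A a k) (A b l) : ℝ) * inner ℝ (A a b) (A i j))) := by
      intro i j k l
      obtain ⟨k1, k2, -, k4⟩ := hG6 n N x₀ L u t₀ hG A T hA hT i j k l
      exact ⟨k1.of_le (show (2 : WithTop ℕ∞) ≤ 4 by norm_num), k2, fun _ => rfl, k4⟩
    have h2 := J2.q4 hJA h1 P Q P Q
    rw [q4_inner, heat_sum] at h2
    refine ⟨_, h2.congr hJA (Eventually.of_forall fun z => ?_)⟩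
    show (inner ℝ (bilV (fun i j => sff (grf x₀ L u z.2) z.1 i j) P Q)
        (bilV (fun i j => sff (grf x₀ L u z.2) z.1 i j) P Q) : ℝ) = _
    rw [← q4_inner]
    rfl
  obtain ⟨D1, hR1⟩ := hR1
  obtain ⟨D2, H2, hR2⟩ := hR P Q P P
  obtain ⟨D3, H3, hR3⟩ := hR P P P P
  -- numerator
  have hqR2 := hq.mul hJB hR2
  have hqR3 := hq.mul hJB hR3
  have hqqR3 := hq.mul hJB hqR3
  have hN := (hR1.sub hJA (hqR2.cmul hJA 2)).add hJA hqqR3
  have hD := (hPP.mul hJB hQQ).sub hJA (hPQg.mul hJB hPQg)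
  have hD' : J2 (fun z => g P P z * g Q Q z - g P Q z * g P Q z) (0, t₀) 1 (fun _ => 0)
      (-2 * Sbl A P P + -2 * Sbl A Q Q) := by
    have := hD
    simp only [mul_zero, zero_mul, mul_one, one_mul, sub_zero, add_zero,
      Finset.sum_const_zero] at this
    exact this
  have hβ' := hN.div1 hJD hD'
  have hfun : β = fun z => ((inner ℝ (bilV (fun i j => sff (grf x₀ L u z.2) z.1 i j) P Q)
        (bilV (fun i j => sff (grf x₀ L u z.2) z.1 i j) P Q) : ℝ)
      - 2 * (g P Q z / g P P z * (inner ℝ (bilV (fun i j => sff (grf x₀ L u z.2) z.1 i j) P Q)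
        (bilV (fun i j => sff (grf x₀ L u z.2) z.1 i j) P P) : ℝ))
      + g P Q z / g P P z * (g P Q z / g P P z *
        (inner ℝ (bilV (fun i j => sff (grf x₀ L u z.2) z.1 i j) P P)
        (bilV (fun i j => sff (grf x₀ L u z.2) z.1 i j) P P) : ℝ)))
      / (g P P z * g Q Q z - g P Q z * g P Q z) := by
    rw [hβ]
    funext z
    rw [norm_sub_sq_real, real_inner_smul_right, norm_smul, mul_pow, Real.norm_eq_abs, sq_abs,
      real_inner_self_eq_norm_sq, real_inner_self_eq_norm_sq]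
    congr 1
    · ring
    · ring
  rw [← hfun] at hβ'
  refine ⟨hβ'.c, ?_, ?_⟩
  · rw [hβ'.v, real_inner_self_eq_norm_sq]
    ring
  · rw [hβ'.h]
    simp only [mul_zero, zero_mul, sub_zero, add_zero, Finset.sum_const_zero]
    rw [real_inner_self_eq_norm_sq]
    unfold ReaP
    have e5 : (∑ a, ∑ b, (inner ℝ (Av A P a) (Av A Q b) : ℝ) * inner ℝ (A a b) (bilV A P Q)) =
        ∑ i, ∑ j, (inner ℝ (Av A P i) (Av A Q j) : ℝ) * inner ℝ (A i j) (bilV A P Q) := rfl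
    rw [e5]
    ring

end Helper10.HC
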