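import Pool.Agent.Helper35.HC.StA

/-!
Project HC (MP_925021_gt), module SPL (helper10): unit combinations have spread at most `2μ`.
-/

set_option autoImplicit false

namespace Helper10.HC

open Helper35.HC Helper35.HSF Helper35.MS Helper35.PI Helper35.PI2 Helper32.CL

private theorem bil_symm {n : ℕ} {X : Fin n → Fin n → ℝ} (hX : SymS X) (c d : Fin n → ℝ) :
    bil X d c = bil X c d := by
  unfold bil
  rw [Finset.sum_comm]
  refine Finset.sum_congr rfl fun i _ => Finset.sum_congr rfl fun j _ => ?_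
  rw [hX j i]
  ring

private theorem bil_lc {n : ℕ} (a a' : ℝ) (K b : Fin n → Fin n → ℝ) (c d : Fin n → ℝ) :
    bil (lc a a' K b) c d = a * bil K c d + a' * bil b c d := by
  unfold bil lc
  rw [Finset.mul_sum, Finset.mul_sum, ← Finset.sum_add_distrib]
  refine Finset.sum_congr rfl fun i _ => ?_
  rw [Finset.mul_sum, Finset.mul_sum, ← Finset.sum_add_distrib]
  refine Finset.sum_congr rfl fun j _ => ?_
  ring

private theorem lc_symm {n : ℕ} (a a' : ℝ) {K b : Fin n → Fin n → ℝ} (hK : SymS K)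
    (hb : SymS b) : SymS (lc a a' K b) := by
  intro i j
  unfold lc
  rw [hK i j, hb i j]

private theorem op_rot {n : ℕ} {c d : Fin n → ℝ} (h : OP c d) (r : ℝ) (hr : r ^ 2 = 1 / 2) :
    OP (fun i => (c i + d i) * r) (fun i => (c i - d i) * r) := by
  obtain ⟨h1, h2, h3⟩ := h
  refine ⟨?_, ?_, ?_⟩
  · have : ∀ i, ((c i + d i) * r) ^ 2 = r ^ 2 * (c i ^ 2 + d i ^ 2 + 2 * (c i * d i)) := by
      intro i; ring
    simp only [this]
    rw [← Finset.mul_sum, Finset.sum_add_distrib, Finset.sum_add_distrib, ← Finset.mul_sum, h1, h2,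
      h3, hr]
    norm_num
  · have : ∀ i, ((c i - d i) * r) ^ 2 = r ^ 2 * (c i ^ 2 + d i ^ 2 - 2 * (c i * d i)) := by
      intro i; ring
    simp only [this]
    rw [← Finset.mul_sum, Finset.sum_sub_distrib, Finset.sum_add_distrib, ← Finset.mul_sum, h1, h2,
      h3, hr]
    norm_num
  · have : ∀ i, (c i + d i) * r * ((c i - d i) * r) = r ^ 2 * (c i ^ 2 - d i ^ 2) := by
      intro i; ring
    simp only [this]
    rw [← Finset.mul_sum, Finset.sum_sub_distrib, h1, h2]
    norm_num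

private theorem bil_rot {n : ℕ} {X : Fin n → Fin n → ℝ} (hX : SymS X) (c d : Fin n → ℝ) (r : ℝ)
    (hr : r ^ 2 = 1 / 2) :
    bil X c c - bil X d d =
      2 * bil X (fun i => (c i + d i) * r) (fun i => (c i - d i) * r) := by
  have h1 : bil X (fun i => (c i + d i) * r) (fun i => (c i - d i) * r) =
      r ^ 2 * (bil X c c - bil X c d + bil X d c - bil X d d) := by
    unfold bil
    rw [← Finset.sum_sub_distrib, ← Finset.sum_add_distrib, ← Finset.sum_sub_distrib,
      Finset.mul_sum]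
    refine Finset.sum_congr rfl fun i _ => ?_
    rw [← Finset.sum_sub_distrib, ← Finset.sum_add_distrib, ← Finset.sum_sub_distrib,
      Finset.mul_sum]
    refine Finset.sum_congr rfl fun j _ => ?_
    ring
  rw [h1, bil_symm hX c d, hr]
  ring

private theorem cq_rot {n : ℕ} (a a' : ℝ) (h : a ^ 2 + a' ^ 2 = 1) (K b : Fin n → Fin n → ℝ) :
    cq (lc a a' K b) (lc (-a') a K b) = cq K b := by
  unfold cq
  refine Finset.sum_congr rfl fun i _ => Finset.sum_congr rfl fun j _ => ?_
  congr 1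
  refine Finset.sum_congr rfl fun k _ => ?_
  unfold lc
  linear_combination (K i k * b k j - b i k * K k j) * h

theorem hSPL (hSPR : StSPR) : StSPL := by
  intro n hn K b μ hK hb hμ hmx a a' haa
  have hr : ((Real.sqrt 2)⁻¹) ^ 2 = (1 : ℝ) / 2 := by
    rw [inv_pow, Real.sq_sqrt (by norm_num)]
    norm_num
  have h1 : ∀ c d, OP c d → bil (lc a a' K b) c c - bil (lc a a' K b) d d ≤ 2 * μ := by
    intro c d hcd
    rw [bil_rot (lc_symm a a' hK hb) c d _ hr, bil_lc]
    have h2 := hmx _ _ (op_rot hcd _ hr)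
    set x := bil K (fun i => (c i + d i) * (Real.sqrt 2)⁻¹)
      (fun i => (c i - d i) * (Real.sqrt 2)⁻¹) with hx
    set y := bil b (fun i => (c i + d i) * (Real.sqrt 2)⁻¹)
      (fun i => (c i - d i) * (Real.sqrt 2)⁻¹) with hy
    have h3 : (a * x + a' * y) ^ 2 ≤ μ ^ 2 := by
      have h4 : (a * x + a' * y) ^ 2 = (a ^ 2 + a' ^ 2) * (x ^ 2 + y ^ 2) - (a * y - a' * x) ^ 2 := by
        ring
      rw [h4, haa]
      nlinarith [sq_nonneg (a * y - a' * x)]
    have h5 : a * x + a' * y ≤ μ := (abs_le_of_sq_le_sq' h3 hμ).2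
    linarith
  have h2 := hSPR n hn (lc a a' K b) μ (lc_symm a a' hK hb) hμ h1
  refine ⟨h1, h2.1, ?_⟩
  rw [← cq_rot a a' haa K b]
  exact (h2.2 (lc (-a') a K b) (lc_symm (-a') a hK hb)).1

end Helper10.HC
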